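import Pool.Agent.H79.GM.Def
import Pool.Agent.H77.PB.Main

/-! # SV.Def : specialisations of varieties (definitions only, no sorry) -/

namespace SV

open H68.BB H79.GM

variable {K0 K1 : Type} [Field K0] [Field K1] {m : ℕ}

/-- the alternating products of `k` zero-cycles of degree zero on `X` are torsion, over all algebraically closed fields containing `K0` -/
def AltT (X : Var K0 m) (k : ℕ) : Prop :=
  ∀ (K : Type) [Field K] [IsAlgClosed K] [Algebra K0 K] (z : Fin k → ((Fin m → K) →₀ ℤ)),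
    (∀ i, ((z i).sum fun _ n => n) = 0) → (∀ i, ∀ u ∈ (z i).support, OnV X u) → ∃ N : ℕ, 0 < N ∧ N • H77.PB.altX z ∈ RatV X K k

/-- the place `φ : V → K` of `L` extends `φ0 : V0 → K0` -/
def Ext (V0 : ValuationSubring K1) (φ0 : V0 →+* K0) {K L : Type} [Field K] [Algebra K0 K] [Field L] [Algebra K1 L]
    (V : ValuationSubring L) (φ : V →+* K) : Prop :=
  IsLocalHom φ ∧ Function.Surjective φ ∧ ∀ a : V0, Rd V φ (algebraMap K1 L a) (algebraMap K0 K (φ0 a))

/-- `X` is a specialisation of `X1`: same weights, the equations of `X` are reductions of equations of `X1`, and the points of `X` lift -/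
structure Lim (V0 : ValuationSubring K1) (φ0 : V0 →+* K0) (X1 : Var K1 m) (X : Var K0 m) : Prop where
  w : X1.w = X.w
  J : ∀ f ∈ X.J, ∃ f1 ∈ X1.J, ∀ e, Rd V0 φ0 (MvPolynomial.coeff e f1) (MvPolynomial.coeff e f)
  lift : ∀ (K L : Type) [Field K] [IsAlgClosed K] [Algebra K0 K] [Field L] [IsAlgClosed L] [Algebra K1 L] (V : ValuationSubring L)
    (φ : V →+* K), Ext V0 φ0 V φ → ∀ u : Fin m → K, OnV X u → ∃ U : Fin m → L, OnV X1 U ∧ ∀ i, Rd V φ (U i) (u i)

end SV
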