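import Pool.Agent.H71.SV.Def
import Pool.Agent.H71.SD.Lang

/-! # SV.Ext : places extend to all algebraically closed residue fields

`L = AlgebraicClosure (FractionRing (MvPolynomial K K1))`, `R` = the image of `MvPolynomial K V0`, `x_c ↦ c`; `SD.lang_exists`. -/

namespace SV

open H68.BB

private abbrev Ext_R (K K1 : Type) [Field K1] : Type := MvPolynomial K K1

private abbrev Ext_L (K K1 : Type) [Field K1] : Type := AlgebraicClosure (FractionRing (Ext_R K K1))

private noncomputable def Ext_to (K K1 : Type) [Field K1] : Ext_R K K1 →+* Ext_L K K1 := algebraMap (Ext_R K K1) (Ext_L K K1)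

private theorem Ext_inj (K K1 : Type) [Field K1] : Function.Injective (Ext_to K K1) := by
  have h : Ext_to K K1 = (algebraMap (FractionRing (Ext_R K K1)) (Ext_L K K1)).comp (algebraMap (Ext_R K K1) (FractionRing (Ext_R K K1))) :=
    IsScalarTower.algebraMap_eq _ _ _
  rw [h]
  exact (algebraMap (FractionRing (Ext_R K K1)) (Ext_L K K1)).injective.comp (IsFractionRing.injective (Ext_R K K1) (FractionRing (Ext_R K K1)))

theorem ext_place {K0 K1 : Type} [Field K0] [Field K1] (V0 : ValuationSubring K1) (φ0 : V0 →+* K0) (K : Type) [Field K]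
    [IsAlgClosed K] [Algebra K0 K] : ∃ (L : Type) (_ : Field L) (_ : IsAlgClosed L) (_ : Algebra K1 L) (V : ValuationSubring L)
      (φ : V →+* K), Ext V0 φ0 V φ := by
  classical
  let j : MvPolynomial K V0 →+* Ext_L K K1 := (Ext_to K K1).comp (MvPolynomial.map V0.subtype)
  have hj : Function.Injective j := (Ext_inj K K1).comp (MvPolynomial.map_injective _ Subtype.val_injective)
  let E : MvPolynomial K V0 ≃+* j.range := RingEquiv.ofBijective j.rangeRestrict
    ⟨fun x y h => hj (congrArg Subtype.val h), j.rangeRestrict_surjective⟩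
  let ev : MvPolynomial K V0 →+* K := MvPolynomial.eval₂Hom ((algebraMap K0 K).comp φ0) id
  obtain ⟨V, φ, hloc, hR⟩ := SD.lang_exists j.range (ev.comp E.symm.toRingHom)
  have hp : ∀ p : MvPolynomial K V0, Rd V φ (j p) (ev p) := by
    intro p
    have h1 := hR (E p)
    have h2 : (ev.comp E.symm.toRingHom) (E p) = ev p := by
      show ev (E.symm (E p)) = ev p
      rw [E.symm_apply_apply]
    rw [h2] at h1
    exact h1
  refine ⟨Ext_L K K1, inferInstance, inferInstance, ((Ext_to K K1).comp MvPolynomial.C).toAlgebra, V, φ, hloc, ?_, ?_⟩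
  · intro l
    obtain ⟨h1, h2⟩ := hp (MvPolynomial.X l)
    refine ⟨⟨_, h1⟩, h2.trans ?_⟩
    show MvPolynomial.eval₂Hom _ _ (MvPolynomial.X l) = l
    rw [MvPolynomial.eval₂Hom_X']
    rfl
  · intro a
    have h1 := hp (MvPolynomial.C a)
    have h2 : ev (MvPolynomial.C a) = algebraMap K0 K (φ0 a) := by
      show MvPolynomial.eval₂Hom _ _ (MvPolynomial.C a) = _
      rw [MvPolynomial.eval₂Hom_C]
      rfl
    have h3 : j (MvPolynomial.C a) = Ext_to K K1 (MvPolynomial.C (a : K1)) := by
      show Ext_to K K1 (MvPolynomial.map V0.subtype (MvPolynomial.C a)) = _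
      rw [MvPolynomial.map_C]
      rfl
    rw [h2, h3] at h1
    exact h1

end SV
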