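import Pool.Agent.H71.SV.Def
import Pool.Agent.H71.SZ.MainS
import Pool.Agent.H79.GM.Ev

/-! # SV.Glue : specialisation of `H79.GM.RatV` (as `Pool/Agent/H71/SZ/GlueES.lean`) -/

namespace SV

open H68.BB H79.GM SZ

variable {K0 K1 : Type} [Field K0] [Field K1] {m k : ℕ}

/-- all points are on `X` -/
def OnA {F : Type} [Field F] [Algebra K0 F] (X : Var K0 m) (P : Vc (fun _ : Fin k => Fin m) F) : Prop := ∀ j, OnV X (P j)

theorem ratV_eq (X : Var K0 m) (K : Type) [Field K] [Algebra K0 K] :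
    RatV X K k = RatG (K := K) (fun (_ : Fin k) => X.w) (OnA X) := rfl

private theorem gv_sum {F1 F : Type} [Field F1] [Field F] {V : ValuationSubring F1} {ψ : V →+* F} {ι : Type} (T : Finset ι)
    (x : ι → F1) (a : ι → F) (h : ∀ i ∈ T, Rd V ψ (x i) (a i)) : Rd V ψ (∑ i ∈ T, x i) (∑ i ∈ T, a i) := by
  classical
  induction T using Finset.induction_on with
  | empty => rw [Finset.sum_empty, Finset.sum_empty]; exact Rd.zero
  | insert i T hi ih =>
    rw [Finset.sum_insert hi, Finset.sum_insert hi]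
    exact (h i (Finset.mem_insert_self _ _)).add (ih fun j hj => h j (Finset.mem_insert_of_mem hj))

private theorem gv_prod {F1 F : Type} [Field F1] [Field F] {V : ValuationSubring F1} {ψ : V →+* F} {ι : Type} (T : Finset ι)
    (x : ι → F1) (a : ι → F) (h : ∀ i ∈ T, Rd V ψ (x i) (a i)) : Rd V ψ (∏ i ∈ T, x i) (∏ i ∈ T, a i) := by
  classical
  induction T using Finset.induction_on with
  | empty => rw [Finset.prod_empty, Finset.prod_empty]; exact Rd.one
  | insert i T hi ih =>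
    rw [Finset.prod_insert hi, Finset.prod_insert hi]
    exact (h i (Finset.mem_insert_self _ _)).mul (ih fun j hj => h j (Finset.mem_insert_of_mem hj))

private theorem gv_ev {K F : Type} [Field K] [Field F] [Algebra K F] (f : MvPolynomial (Fin m) K) (β : Fin m → F)
    (T : Finset (Fin m →₀ ℕ)) (hT : f.support ⊆ T) :
    MvPolynomial.aeval β f = ∑ d ∈ T, algebraMap K F (MvPolynomial.coeff d f) * ∏ i, β i ^ d i := by
  rw [MvPolynomial.aeval_def, MvPolynomial.eval₂_eq']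
  refine Finset.sum_subset hT fun d _ hd => ?_
  rw [MvPolynomial.notMem_support_iff.1 hd, map_zero, zero_mul]

/-- the value of a polynomial reduces to the value of its reduction -/
theorem rd_val {F1 F : Type} [Field F1] [Field F] [Algebra K1 F1] [Algebra K0 F] {V : ValuationSubring F1} {ψ : V →+* F}
    {f1 : MvPolynomial (Fin m) K1} {f : MvPolynomial (Fin m) K0}
    (h : ∀ e, Rd V ψ (algebraMap K1 F1 (MvPolynomial.coeff e f1)) (algebraMap K0 F (MvPolynomial.coeff e f)))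
    {z1 : Fin m → F1} {z : Fin m → F} (hz : ∀ i, Rd V ψ (z1 i) (z i)) :
    Rd V ψ (MvPolynomial.aeval z1 f1) (MvPolynomial.aeval z f) := by
  classical
  rw [gv_ev f1 z1 (f1.support ∪ f.support) Finset.subset_union_left, gv_ev f z (f1.support ∪ f.support) Finset.subset_union_right]
  exact gv_sum _ _ _ fun d _ => (h d).mul (gv_prod _ _ _ fun i _ => (hz i).pow _)

/-- the specialisation of a point of `X1` is on `X` -/
private theorem gv_on {F1 F : Type} [Field F1] [Field F] [Algebra K1 F1] [Algebra K0 F] {V : ValuationSubring F1}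
    {ψ : V →+* F} {X1 : Var K1 m} {X : Var K0 m} (h1 : X1.Ok) (hw : X1.w = X.w)
    (hJ : ∀ f ∈ X.J, ∃ f1 ∈ X1.J, ∀ e, Rd V ψ (algebraMap K1 F1 (MvPolynomial.coeff e f1)) (algebraMap K0 F (MvPolynomial.coeff e f)))
    {U : Fin m → F1} {u : Fin m → F} (hU : OnV X1 U) (hu : u ≠ 0) {d : F1} (hd : ∀ i, Rd V ψ (d ^ X.w i * U i) (u i)) : OnV X u := by
  refine ⟨hu, fun f hf => ?_⟩
  obtain ⟨f1, hf1, hff⟩ := hJ f hf
  obtain ⟨e, he⟩ := h1.J f1 hf1
  have h2 : ∀ i, Rd V ψ (d ^ X1.w i * U i) (u i) := fun i => by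
    rw [hw]
    exact hd i
  have h3 := rd_val hff h2
  rw [aeval_scale he, hU.2 f1 hf1, mul_zero] at h3
  exact h3.unique Rd.zero

variable {L K : Type} [Field L] [Algebra K1 L] [Field K] [Algebra K0 K] {V0 : ValuationSubring L} {φ0 : V0 →+* K}

theorem clo_v {X1 : Var K1 m} {X : Var K0 m} (h1 : X1.Ok) (h : X.Ok) (hw : X1.w = X.w)
    (hJ : ∀ f ∈ X.J, ∃ f1 ∈ X1.J, ∀ e, Rd V0 φ0 (algebraMap K1 L (MvPolynomial.coeff e f1)) (algebraMap K0 K (MvPolynomial.coeff e f))) :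
    Clo (fun (_ : Fin k) => X.w) V0 φ0 (OnA X1) (OnA X) := by
  refine ⟨fun P hP j => (hP j).1, ?_, ?_, ?_, ?_⟩
  · intro E P p hP hp j
    obtain ⟨hne, d, -, hd⟩ := hp j
    refine gv_on h1 hw (fun f hf => ?_) (hP j) hne hd
    obtain ⟨f1, hf1, hff⟩ := hJ f hf
    refine ⟨f1, hf1, fun e => ?_⟩
    obtain ⟨hm, he⟩ := hff e
    rw [IsScalarTower.algebraMap_apply K1 L (Om L), IsScalarTower.algebraMap_apply K0 K (Om K), ← he]
    exact E.ext ⟨_, hm⟩
  · intro π P p hP hp j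
    exact onV_cst (onV_sp h (hP j) (hp j))
  · rintro P P' hP ⟨e, he, rfl⟩ j
    have hPj := hP j
    refine ⟨fun h0 => hPj.1 ?_, fun f hf => ?_⟩
    · funext i
      exact (mul_eq_zero.1 (congrFun h0 i : e j ^ X.w i * P j i = 0)).resolve_left (pow_ne_zero _ (he _))
    · obtain ⟨d, hd⟩ := h.J f hf
      change MvPolynomial.aeval (fun i => e j ^ X.w i * P j i) f = 0
      rw [aeval_scale hd, hPj.2 f hf, mul_zero]
  · intro π P p q hP hp hq j
    have hp1 : OnV X1 (p j) := onV_sp h1 (hP j) (by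
      have h2 := hp j
      rw [← hw] at h2
      exact h2)
    obtain ⟨hne, d, -, hd⟩ := hq j
    exact onV_cst (gv_on h1 hw hJ hp1 hne hd)

theorem var_spz [IsAlgClosed L] [IsAlgClosed K] [CharZero L] [IsLocalHom φ0] {X1 : Var K1 m} {X : Var K0 m} (h1 : X1.Ok) (h : X.Ok)
    (hw : X1.w = X.w)
    (hJ : ∀ f ∈ X.J, ∃ f1 ∈ X1.J, ∀ e, Rd V0 φ0 (algebraMap K1 L (MvPolynomial.coeff e f1)) (algebraMap K0 K (MvPolynomial.coeff e f))) :
    ∃ N : ℕ, 0 < N ∧ ∀ (ι : Type) (T : Finset ι) (n : ι → ℤ) (P : ι → Fin k → Fin m → L) (p : ι → Fin k → Fin m → K),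
      (∀ i ∈ T, ∀ j, OnV X (p i j) ∧ ∀ l, Rd V0 φ0 (P i j l) (p i j l)) →
      ∑ i ∈ T, n i • (Finsupp.single (P i) 1 : (Fin k → Fin m → L) →₀ ℤ) ∈ RatV X1 L k →
      N • ∑ i ∈ T, n i • (Finsupp.single (p i) 1 : (Fin k → Fin m → K) →₀ ℤ) ∈ RatV X K k := by
  classical
  obtain ⟨N, hN⟩ := orb_exists (J := Fin k) (I := fun _ => Fin m) (w := fun _ => X.w) fun _ i => h.w i
  refine ⟨N, hN.1, ?_⟩
  intro ι T n P p hPp hz
  have hC := clo_v (k := k) h1 h hw hJ
  let sp : Vc (fun _ : Fin k => Fin m) L → Vc (fun _ : Fin k => Fin m) K := fun Q =>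
    if hQ : ∃ q : Vc (fun _ : Fin k => Fin m) K, NZ q ∧ ∀ j i, Rd V0 φ0 (Q j i) (q j i) then hQ.choose
    else if hQ : ∃ q, Spc (fun _ => X.w) V0 φ0 Q q then hQ.choose else 0
  have hsp : ∀ Q, NZ Q → Spc (fun _ => X.w) V0 φ0 Q (sp Q) := by
    intro Q hQ
    by_cases h2 : ∃ q : Vc (fun _ : Fin k => Fin m) K, NZ q ∧ ∀ j i, Rd V0 φ0 (Q j i) (q j i)
    · have e : sp Q = h2.choose := dif_pos h2
      rw [e]
      exact Spc.of_rd h2.choose_spec.1 h2.choose_spec.2
    · have h3 : ∃ q, Spc (fun _ => X.w) V0 φ0 Q q := spc_exists (fun _ i => h.w i) V0 φ0 hQ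
      have e : sp Q = h3.choose := (dif_neg h2).trans (dif_pos h3)
      rw [e]
      exact h3.choose_spec
  have hspP : ∀ i ∈ T, sp (P i) = p i := by
    intro i hi
    have hnz : NZ (p i) := fun j => (hPp i hi j).1.1
    have h2 : ∃ q : Vc (fun _ : Fin k => Fin m) K, NZ q ∧ ∀ j l, Rd V0 φ0 (P i j l) (q j l) :=
      ⟨p i, hnz, fun j l => (hPp i hi j).2 l⟩
    have e : sp (P i) = h2.choose := dif_pos h2
    rw [e]
    funext b x
    exact (h2.choose_spec.2 b x).unique ((hPp i hi b).2 x)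
  have hz2 : ∑ i ∈ T, n i • (Finsupp.single (P i) 1 : Cy (fun _ : Fin k => Fin m) L) ∈ RatG (K := L) (fun _ => X.w) (OnA X1) := by
    rw [← hw]
    exact hz
  have h5 := spz (fun _ i => h.w i) hN hC hsp hz2
  have e2 : Finsupp.mapDomain sp (∑ i ∈ T, n i • (Finsupp.single (P i) 1 : Cy (fun _ : Fin k => Fin m) L)) =
      ∑ i ∈ T, n i • (Finsupp.single (p i) 1 : Cy (fun _ : Fin k => Fin m) K) := by
    have e := map_sum (Finsupp.mapDomain.addMonoidHom (M := ℤ) sp) (fun i => n i • (Finsupp.single (P i) 1 : Cy (fun _ : Fin k => Fin m) L)) T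
    refine e.trans (Finset.sum_congr rfl fun i hi => ?_)
    rw [map_zsmul]
    congr 1
    change Finsupp.mapDomain sp (Finsupp.single (P i) 1) = _
    rw [Finsupp.mapDomain_single, hspP i hi]
  rw [e2] at h5
  exact h5

end SV
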