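import Pool.Agent.H71.SV.Glue
import Mathlib.Algebra.Polynomial.Splits
import Mathlib.Algebra.MvPolynomial.Funext

/-! # SV.Hyp : hypersurfaces: the points lift

`hyp_root`: if `G` over `L` reduces coefficientwise to `g ≠ 0` and `g(0) = 0` then `G` has a root which reduces to zero: otherwise all roots `r` are nonzero with `r⁻¹` integral, `G = G(0) ∏ (1 - r⁻¹ X)` and `g = 0`.
`lim_hyp`: apply this to `f1 (u + t v)`, `v` such that `f (u + v) ≠ 0`. -/

namespace SV

open H68.BB H79.GM Polynomial

section
variable {L K : Type} [Field L] [Field K] {V : ValuationSubring L} {φ : V →+* K}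

/-- the coefficients reduce -/
private def RP (V : ValuationSubring L) (φ : V →+* K) (G : L[X]) (g : K[X]) : Prop := ∀ j, Rd V φ (G.coeff j) (g.coeff j)

private theorem hyp_sum {ι : Type} (T : Finset ι) (x : ι → L) (a : ι → K) (h : ∀ i ∈ T, Rd V φ (x i) (a i)) :
    Rd V φ (∑ i ∈ T, x i) (∑ i ∈ T, a i) := by
  classical
  induction T using Finset.induction_on with
  | empty => rw [Finset.sum_empty, Finset.sum_empty]; exact Rd.zero
  | insert i T hi ih =>
    rw [Finset.sum_insert hi, Finset.sum_insert hi]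
    exact (h i (Finset.mem_insert_self _ _)).add (ih fun j hj => h j (Finset.mem_insert_of_mem hj))

private theorem RP.add {G G' : L[X]} {g g' : K[X]} (h : RP V φ G g) (h' : RP V φ G' g') : RP V φ (G + G') (g + g') := fun j => by
  rw [coeff_add, coeff_add]
  exact (h j).add (h' j)

private theorem RP.mul {G G' : L[X]} {g g' : K[X]} (h : RP V φ G g) (h' : RP V φ G' g') : RP V φ (G * G') (g * g') := fun j => by
  rw [coeff_mul, coeff_mul]
  exact hyp_sum _ _ _ fun i _ => (h i.1).mul (h' i.2)

private theorem RP.zero : RP V φ 0 0 := fun j => by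
  rw [coeff_zero, coeff_zero]
  exact Rd.zero

private theorem RP.C {x : L} {a : K} (h : Rd V φ x a) : RP V φ (C x) (C a) := fun j => by
  rw [coeff_C, coeff_C]
  split_ifs
  · exact h
  · exact Rd.zero

private theorem RP.X : RP V φ X X := fun j => by
  rw [coeff_X, coeff_X]
  split_ifs
  · exact Rd.one
  · exact Rd.zero

private theorem RP.one : RP V φ 1 1 := by
  have h := RP.C (V := V) (φ := φ) Rd.one
  rwa [C_1, C_1] at h

private theorem RP.pow {G : L[X]} {g : K[X]} (h : RP V φ G g) (n : ℕ) : RP V φ (G ^ n) (g ^ n) := by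
  induction n with
  | zero => rw [pow_zero, pow_zero]; exact RP.one
  | succ n ih => rw [pow_succ, pow_succ]; exact ih.mul h

private theorem RP.sum {ι : Type} (T : Finset ι) (x : ι → L[X]) (a : ι → K[X]) (h : ∀ i ∈ T, RP V φ (x i) (a i)) :
    RP V φ (∑ i ∈ T, x i) (∑ i ∈ T, a i) := by
  classical
  induction T using Finset.induction_on with
  | empty => rw [Finset.sum_empty, Finset.sum_empty]; exact RP.zero
  | insert i T hi ih =>
    rw [Finset.sum_insert hi, Finset.sum_insert hi]
    exact (h i (Finset.mem_insert_self _ _)).add (ih fun j hj => h j (Finset.mem_insert_of_mem hj))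

private theorem RP.prod {ι : Type} (T : Finset ι) (x : ι → L[X]) (a : ι → K[X]) (h : ∀ i ∈ T, RP V φ (x i) (a i)) :
    RP V φ (∏ i ∈ T, x i) (∏ i ∈ T, a i) := by
  classical
  induction T using Finset.induction_on with
  | empty => rw [Finset.prod_empty, Finset.prod_empty]; exact RP.one
  | insert i T hi ih =>
    rw [Finset.prod_insert hi, Finset.prod_insert hi]
    exact (h i (Finset.mem_insert_self _ _)).mul (ih fun j hj => h j (Finset.mem_insert_of_mem hj))

/-- a product of polynomials `1 - s X` with integral `s` has integral coefficients -/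
private theorem hyp_int (S : Multiset L) (h : ∀ r ∈ S, r ∈ V) (j : ℕ) : ((S.map fun r => (1 - C r * X : L[X])).prod).coeff j ∈ V := by
  induction S using Multiset.induction_on generalizing j with
  | empty =>
    rw [Multiset.map_zero, Multiset.prod_zero, coeff_one]
    split_ifs
    · exact V.one_mem
    · exact V.zero_mem
  | cons r S ih =>
    have ih' := ih fun r' hr' => h r' (Multiset.mem_cons_of_mem hr')
    rw [Multiset.map_cons, Multiset.prod_cons, sub_mul, one_mul, coeff_sub, mul_assoc, coeff_C_mul]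
    refine V.sub_mem (ih' j) (V.mul_mem _ _ (h r (Multiset.mem_cons_self _ _)) ?_)
    cases j with
    | zero => rw [mul_coeff_zero, coeff_X_zero, zero_mul]; exact V.zero_mem
    | succ j => rw [coeff_X_mul]; exact ih' j

private theorem hyp_fac (S : Multiset L) (h : ∀ r ∈ S, r ≠ 0) : (S.map fun r => (X - C r : L[X])).prod =
    C ((S.map fun r => -r).prod) * (S.map fun r => (1 - C r⁻¹ * X : L[X])).prod := by
  induction S using Multiset.induction_on with
  | empty => simp
  | cons r S ih =>
    have hr := h r (Multiset.mem_cons_self _ _)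
    rw [Multiset.map_cons, Multiset.prod_cons, Multiset.map_cons, Multiset.prod_cons, Multiset.map_cons, Multiset.prod_cons,
      ih fun r' hr' => h r' (Multiset.mem_cons_of_mem hr'), C_mul]
    have e : (X - C r : L[X]) = C (-r) * (1 - C r⁻¹ * X) := by
      rw [mul_sub, ← mul_assoc, ← C_mul, mul_one, neg_mul, mul_inv_cancel₀ hr, C_neg, C_neg, C_1]
      ring
    rw [e]
    ring

private theorem hyp_root [IsAlgClosed L] [IsLocalHom φ] {G : L[X]} {g : K[X]} (h : RP V φ G g) (hg : g ≠ 0) (h0 : g.coeff 0 = 0) :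
    ∃ r : L, G.eval r = 0 ∧ Rd V φ r 0 := by
  classical
  by_contra hcon
  push Not at hcon
  apply hg
  have hG : G ≠ 0 := by
    rintro rfl
    apply hg
    ext j
    have h1 := h j
    rw [coeff_zero] at h1 ⊢
    exact h1.unique Rd.zero
  have hroot : ∀ r ∈ G.roots, r ≠ 0 ∧ r⁻¹ ∈ V := by
    intro r hr
    have h1 : G.eval r = 0 := (mem_roots hG).1 hr
    have h2 := hcon r h1
    have h3 : r ≠ 0 := by
      rintro rfl
      exact h2 Rd.zero
    refine ⟨h3, ?_⟩
    rcases V.mem_or_inv_mem r with h4 | h4
    · by_cases h5 : φ ⟨r, h4⟩ = 0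
      · exact absurd ⟨h4, h5⟩ h2
      · exact ((Rd.of_mem h4).inv h5).mem
    · exact h4
  have hsp : G = C G.leadingCoeff * (G.roots.map fun r => (X - C r)).prod :=
    (IsAlgClosed.splits G).eq_prod_roots
  have hG2 : G = C (G.leadingCoeff * (G.roots.map fun r => -r).prod) * (G.roots.map fun r => (1 - C r⁻¹ * X : L[X])).prod := by
    conv_lhs => rw [hsp, hyp_fac G.roots fun r hr => (hroot r hr).1]
    rw [C_mul]
    ring
  have hint : ∀ j, ((G.roots.map fun r => (1 - C r⁻¹ * X : L[X])).prod).coeff j ∈ V := by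
    intro j
    have h1 := hyp_int (V := V) (G.roots.map fun r => r⁻¹) (fun r hr => by
      obtain ⟨r', hr', rfl⟩ := Multiset.mem_map.1 hr
      exact (hroot r' hr').2) j
    rw [Multiset.map_map] at h1
    exact h1
  have hc0 : ((G.roots.map fun r => (1 - C r⁻¹ * X : L[X])).prod).coeff 0 = 1 := by
    generalize G.roots = S
    induction S using Multiset.induction_on with
    | empty => simp
    | cons r S ih => rw [Multiset.map_cons, Multiset.prod_cons, mul_coeff_zero, ih]; simp
  have h1 : G.coeff 0 = G.leadingCoeff * (G.roots.map fun r => -r).prod := by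
    conv_lhs => rw [hG2]
    rw [coeff_C_mul, hc0, mul_one]
  have h2 : Rd V φ (G.leadingCoeff * (G.roots.map fun r => -r).prod) 0 := by
    rw [← h1, ← h0]
    exact h 0
  ext j
  rw [coeff_zero]
  have h3 := h2.mul (Rd.of_mem (φ := φ) (hint j))
  rw [zero_mul, ← coeff_C_mul, ← hG2] at h3
  exact (h j).unique h3

end

variable {K0 K1 : Type} [Field K0] [Field K1] {m : ℕ}

private theorem hyp_line {F : Type} [Field F] [Algebra K1 F] (f : MvPolynomial (Fin m) K1) (u v : Fin m → F)
    (T : Finset (Fin m →₀ ℕ)) (hT : f.support ⊆ T) (t : F) :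
    (∑ d ∈ T, C (algebraMap K1 F (MvPolynomial.coeff d f)) * ∏ i, (C (u i) + X * C (v i)) ^ d i : F[X]).eval t =
      MvPolynomial.aeval (fun i => u i + t * v i) f := by
  rw [MvPolynomial.aeval_def, MvPolynomial.eval₂_eq', eval_finsetSum]
  rw [Finset.sum_subset hT fun d _ hd => by rw [MvPolynomial.notMem_support_iff.1 hd, map_zero, zero_mul]]
  refine Finset.sum_congr rfl fun d _ => ?_
  rw [eval_mul, eval_C, eval_prod]
  congr 1
  refine Finset.prod_congr rfl fun i _ => ?_
  rw [eval_pow, eval_add, eval_C, eval_mul, eval_X, eval_C]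

/-- a hypersurface is a specialisation of every hypersurface whose equation reduces to its equation -/
theorem lim_hyp {V0 : ValuationSubring K1} {φ0 : V0 →+* K0} (w : Fin m → ℕ) {f1 : MvPolynomial (Fin m) K1} {f : MvPolynomial (Fin m) K0}
    (hf : f ≠ 0) (hr : ∀ e, Rd V0 φ0 (MvPolynomial.coeff e f1) (MvPolynomial.coeff e f)) :
    Lim V0 φ0 (⟨w, {f1}⟩ : Var K1 m) (⟨w, {f}⟩ : Var K0 m) where
  w := rfl
  J := fun g hg => ⟨f1, rfl, by rw [Set.mem_singleton_iff.1 hg]; exact hr⟩
  lift := by
    classical
    intro K L _ _ _ _ _ _ V φ hE u hu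
    have hloc : IsLocalHom φ := hE.1
    have hfK : MvPolynomial.map (algebraMap K0 K) f ≠ 0 := fun h =>
      hf (MvPolynomial.map_injective _ (algebraMap K0 K).injective (by rw [h, map_zero]))
    obtain ⟨p, hp⟩ : ∃ p : Fin m → K, MvPolynomial.aeval p f ≠ 0 := by
      by_contra hcon
      push Not at hcon
      apply hfK
      refine MvPolynomial.funext fun p => ?_
      rw [map_zero, MvPolynomial.eval_map, ← MvPolynomial.aeval_def]
      exact hcon p
    choose U0 hU0 using fun i => hE.2.1 (u i)
    choose W0 hW0 using fun i => hE.2.1 (p i - u i)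
    have hT := Finset.subset_union_left (s₁ := f1.support) (s₂ := f.support)
    have hT' := Finset.subset_union_right (s₁ := f1.support) (s₂ := f.support)
    have hRP : RP V φ (∑ d ∈ f1.support ∪ f.support, C (algebraMap K1 L (MvPolynomial.coeff d f1)) *
        ∏ i, (C ((U0 i : V) : L) + X * C ((W0 i : V) : L)) ^ d i)
        (∑ d ∈ f1.support ∪ f.support, C (algebraMap K0 K (MvPolynomial.coeff d f)) * ∏ i, (C (u i) + X * C (p i - u i)) ^ d i) := by
      refine RP.sum _ _ _ fun d _ => (RP.C ?_).mul (RP.prod _ _ _ fun i _ => RP.pow ((RP.C ?_).add (RP.X.mul (RP.C ?_))) _)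
      · obtain ⟨hm, he⟩ := hr d
        rw [← he]
        exact hE.2.2 ⟨_, hm⟩
      · exact ⟨(U0 i).2, hU0 i⟩
      · exact ⟨(W0 i).2, hW0 i⟩
    obtain ⟨r, hr0, hr1⟩ := hyp_root hRP (fun h0 => by
        apply hp
        have h1 := hyp_line f u (fun i => p i - u i) _ hT' 1
        rw [h0, eval_zero] at h1
        rw [h1]
        congr 1
        congr 1
        funext i
        ring) (by
        rw [coeff_zero_eq_eval_zero, hyp_line f u (fun i => p i - u i) _ hT' 0]
        have h1 : (fun i => u i + 0 * (p i - u i)) = u := by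
          funext i
          ring
        rw [h1]
        exact hu.2 f rfl)
    rw [hyp_line f1 _ _ _ hT r] at hr0
    have hred : ∀ i, Rd V φ (((U0 i : V) : L) + r * ((W0 i : V) : L)) (u i) := by
      intro i
      have h1 : Rd V φ ((U0 i : V) : L) (u i) := ⟨(U0 i).2, hU0 i⟩
      have h2 : Rd V φ ((W0 i : V) : L) (p i - u i) := ⟨(W0 i).2, hW0 i⟩
      have h3 := h1.add (hr1.mul h2)
      rwa [zero_mul, add_zero] at h3
    refine ⟨fun i => ((U0 i : V) : L) + r * ((W0 i : V) : L), ⟨?_, ?_⟩, hred⟩
    · intro h0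
      apply hu.1
      funext i
      have h1 := hred i
      have h2 : ((U0 i : V) : L) + r * ((W0 i : V) : L) = 0 := congrFun h0 i
      rw [h2] at h1
      exact h1.unique Rd.zero
    · intro g hg
      rw [Set.mem_singleton_iff.1 hg]
      exact hr0

end SV
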