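import Pool.Agent.H71.SV.Ext
import Pool.Agent.H71.SV.Glue
import Pool.Agent.H8.SC.Box

/-! # SV.Prod : the property of the exterior products of zero-cycles supported on a closed subset passes to specialisations (all characteristics) -/

namespace SV

open H68.BB H79.GM H77.AF H77.PB

private theorem prd_prod_map {T T' : Type} (w : T → T') {k : ℕ} (z : Fin k → (T →₀ ℤ)) :
    (Finsupp.mapDomain (fun (P : Fin k → T) i => w (P i)) (prodX z) : (Fin k → T') →₀ ℤ) = prodX (fun i => (z i).mapDomain w) := by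
  classical
  have e : ∀ (T : Type) (z : Fin k → (T →₀ ℤ)), prodX z = SCX.boxX z := fun T z => by
    ext P
    rw [prodX_apply, SCX.boxX_apply]
  rw [e, e]
  let L : ((Fin k → T) →₀ ℤ) →ₗ[ℤ] ((Fin k → T') →₀ ℤ) := Finsupp.lmapDomain ℤ ℤ fun (P : Fin k → T) i => w (P i)
  have h : L.compMultilinearMap (SCX.boxXM k T) = (SCX.boxXM k T').compLinearMap fun _ => Finsupp.lmapDomain ℤ ℤ w := by
    refine Module.Basis.ext_multilinear (fun _ => Finsupp.basisSingleOne) ?_
    intro v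
    simp only [LinearMap.compMultilinearMap_apply, MultilinearMap.compLinearMap_apply, SCX.boxXM_apply, Finsupp.coe_basisSingleOne,
      Finsupp.lmapDomain_apply, Finsupp.mapDomain_single, L]
    rw [SCX.boxX_single, SCX.boxX_single, Finsupp.mapDomain_single]
  have h1 := DFunLike.congr_fun h z
  exact h1

private theorem prd_prod_supp {T : Type} {p : T → Prop} {k : ℕ} {z : Fin k → (T →₀ ℤ)} (hz : ∀ i, ∀ u ∈ (z i).support, p u) :
    ∀ P ∈ (prodX z).support, ∀ i, p (P i) := by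
  intro P hP i
  rw [Finsupp.mem_support_iff, prodX_apply] at hP
  refine hz i (P i) (Finsupp.mem_support_iff.2 fun h => hP ?_)
  exact Finset.prod_eq_zero (Finset.mem_univ i) h

private theorem prd_exp {T : Type} {k : ℕ} (M : ℕ) (y : (Fin k → T) →₀ ℤ) :
    M • y = ∑ t ∈ y.support, ((M : ℤ) * y t) • (Finsupp.single t 1 : (Fin k → T) →₀ ℤ) := by
  have e1 : y = ∑ t ∈ y.support, y t • (Finsupp.single t 1 : (Fin k → T) →₀ ℤ) := by
    conv_lhs => rw [← Finsupp.sum_single y]
    unfold Finsupp.sum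
    refine Finset.sum_congr rfl fun t _ => ?_
    rw [Finsupp.smul_single, smul_eq_mul, mul_one]
  conv_lhs => rw [e1]
  rw [Finset.smul_sum]
  refine Finset.sum_congr rfl fun t _ => ?_
  rw [← natCast_zsmul, smul_smul]

private theorem prd_exp_map {T T' : Type} {k : ℕ} (M : ℕ) (w : T → T') (y : (Fin k → T) →₀ ℤ) :
    M • (Finsupp.mapDomain (fun (P : Fin k → T) i => w (P i)) y : (Fin k → T') →₀ ℤ) =
      ∑ t ∈ y.support, ((M : ℤ) * y t) • (Finsupp.single (fun i => w (t i)) 1 : (Fin k → T') →₀ ℤ) := by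
  have e := map_nsmul (Finsupp.mapDomain.addMonoidHom (fun (P : Fin k → T) i => w (P i)) : ((Fin k → T) →₀ ℤ) →+ ((Fin k → T') →₀ ℤ)) M y
  rw [Finsupp.mapDomain.addMonoidHom_apply, Finsupp.mapDomain.addMonoidHom_apply] at e
  rw [← e, prd_exp, Finsupp.mapDomain_finsetSum]
  refine Finset.sum_congr rfl fun t _ => ?_
  rw [Finsupp.mapDomain_smul, Finsupp.mapDomain_single]

/-- the exterior products of `k` zero-cycles of degree zero supported on the closed subset `D` of `X` are torsion, over all algebraically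
closed fields containing `K0` -/
def ProdT {K0 : Type} [Field K0] {m : ℕ} (X D : Var K0 m) (k : ℕ) : Prop :=
  ∀ (K : Type) [Field K] [IsAlgClosed K] [Algebra K0 K] (z : Fin k → ((Fin m → K) →₀ ℤ)),
    (∀ i, ((z i).sum fun _ n => n) = 0) → (∀ i, ∀ u ∈ (z i).support, OnV D u) → ∃ N : ℕ, 0 < N ∧ N • prodX z ∈ RatV X K k

/-- **specialisation** of the property `ProdT` -/
theorem spec_prod {K0 K1 : Type} [Field K0] [Field K1] [CharZero K1] {m : ℕ} {V0 : ValuationSubring K1} {φ0 : V0 →+* K0}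
    {X1 D1 : Var K1 m} {X D : Var K0 m} (h1 : X1.Ok) (h : X.Ok) (hw : X1.w = X.w)
    (hJ0 : ∀ f ∈ X.J, ∃ f1 ∈ X1.J, ∀ e, Rd V0 φ0 (MvPolynomial.coeff e f1) (MvPolynomial.coeff e f))
    (hX : X.J ⊆ D.J) (hL : Lim V0 φ0 D1 D) {k : ℕ} (hA : ProdT X1 D1 k) : ProdT X D k := by
  classical
  intro K _ _ _ z hdeg hz
  obtain ⟨L, _, _, _, V, φ, hE⟩ := ext_place V0 φ0 K
  have hcz : CharZero L := charZero_of_injective_algebraMap (algebraMap K1 L).injective
  have hloc : IsLocalHom φ := hE.1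
  have hJ : ∀ f ∈ X.J, ∃ f1 ∈ X1.J, ∀ e, Rd V φ (algebraMap K1 L (MvPolynomial.coeff e f1)) (algebraMap K0 K (MvPolynomial.coeff e f)) := by
    intro f hf
    obtain ⟨f1, hf1, hff⟩ := hJ0 f hf
    refine ⟨f1, hf1, fun e => ?_⟩
    obtain ⟨hm, he⟩ := hff e
    rw [← he]
    exact hE.2.2 ⟨_, hm⟩
  obtain ⟨N, hN, hsp⟩ := var_spz (k := k) (L := L) (K := K) (V0 := V) (φ0 := φ) h1 h hw hJ
  have hli : ∀ u : Fin m → K, ∃ U : Fin m → L, OnV D u → OnV D1 U ∧ ∀ i, Rd V φ (U i) (u i) := fun u => by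
    by_cases hu : OnV D u
    · obtain ⟨U, hU⟩ := hL.lift K L V φ hE u hu
      exact ⟨U, fun _ => hU⟩
    · exact ⟨0, fun h => absurd h hu⟩
  choose li hli using hli
  obtain ⟨M, hM, h2⟩ := hA L (fun i => (z i).mapDomain li) (fun i => by
      rw [Finsupp.sum_mapDomain_index (fun _ => rfl) (fun _ _ _ => rfl)]
      exact hdeg i) (fun i U hU => by
      obtain ⟨u, hu, rfl⟩ := Finset.mem_image.1 (Finsupp.mapDomain_support hU)
      exact (hli u (hz i u hu)).1)
  rw [← prd_prod_map, prd_exp_map] at h2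
  refine ⟨N * M, Nat.mul_pos hN hM, ?_⟩
  have h3 := hsp (Fin k → Fin m → K) (prodX z).support (fun t => (M : ℤ) * prodX z t) (fun t i => li (t i)) (fun t => t) (fun t ht j => by
    have h4 := prd_prod_supp (p := fun u => OnV D u) hz t ht j
    exact ⟨⟨h4.1, fun f hf => h4.2 f (hX hf)⟩, (hli _ h4).2⟩) h2
  rw [mul_smul, prd_exp M (prodX z)]
  exact h3

end SV
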